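import Pool.Agent.H77.AM.Gn

/-!
# The types of the corners of a II₁ factor

By our trichotomy a II₁ factor `P` is of one of three types: 2 if it has a unique sequential
commutation orbit, 1 if it has more than one orbit and one of them generates `P`, 0 if no orbit
generates `P`.  Let `(N, τ)` be a II₁ factor and `p, q` non-zero projections of `N`.  If
`τ(p) ≤ τ(q)`, or if the fundamental group of `N` is not trivial, then the type of `pNp` is at most
the type of `qNq`.
-/

set_option autoImplicit false

namespace Pool.Agent.Results.MP_b78e92_an.CornerTypes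

open SC ST AM

open Classical in
/-- The type of `pNp`: 2 if `pNp` has a unique orbit, 1 if it has not but is generated by a single
orbit, 0 if no orbit generates `pNp`. -/
noncomputable def orbitType {N : Type*} [CStarAlgebra N] (τ : N →ₗ[ℂ] ℂ) (U : Ultrafilter ℕ)
    (p : N) : ℕ :=
  if Uniq τ U p then 2 else if GenOne τ U p then 1 else 0

/-- The fundamental group of `N` is not trivial: `N` is isomorphic to one of its corners `rNr` with
`r ≠ 1`. -/
def FundNontrivial {N : Type*} [CStarAlgebra N] (τ : N →ₗ[ℂ] ℂ) : Prop :=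
  ∃ (r : N) (φ : N →⋆ₙₐ[ℂ] N), r ≠ 1 ∧ CornerIso τ r φ

theorem result {N : Type*} [CStarAlgebra N] (τ : N →ₗ[ℂ] ℂ) (hτ : IsII1 τ) (U : Ultrafilter ℕ)
    (p q : N) (hp : IsProj p) (hq : IsProj q) (hp0 : p ≠ 0) (hq0 : q ≠ 0)
    (hpq : (τ p).re ≤ (τ q).re ∨ FundNontrivial τ) : orbitType τ U p ≤ orbitType τ U q := by
  have h1 : Uniq τ U p → Uniq τ U q := by
    rcases hpq with hpq | ⟨r, φ, hr, hφ⟩
    · exact uniq_mono hτ hp hq hp0 hpq
    · exact uniq_all hτ hφ hr hp hq hp0 hq0
  have h2 : GenOne τ U p → GenOne τ U q := by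
    rcases hpq with hpq | ⟨r, φ, hr, hφ⟩
    · exact genOne_mono hτ hp hq hp0 hpq
    · exact genOne_all hτ hφ hr hp hq hp0 hq0
  unfold orbitType
  by_cases hu : Uniq τ U p
  · rw [if_pos hu, if_pos (h1 hu)]
  · rw [if_neg hu]
    by_cases hg : GenOne τ U p
    · rw [if_pos hg, if_pos (h2 hg)]
      split_ifs <;> norm_num
    · rw [if_neg hg]
      exact Nat.zero_le _

end Pool.Agent.Results.MP_b78e92_an.CornerTypes
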