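import Pool.Agent.H77.AM.Qe

/-!
# A local criterion for the uniqueness of the sequential commutation orbit

Let `(N, τ)` be a II₁ factor, `z` a Haar unitary of `N` and `e ≠ 0` a projection of `N` commuting with
`z`, of arbitrarily small trace.  If `z` lies in the same sequential commutation orbit as `w z w*` for
all unitaries `w` of `N` with `w (1 - e) = 1 - e`, then all Haar unitaries of `N` lie in one orbit, and
are joined by paths of one bounded length.
-/

set_option autoImplicit false

namespace Pool.Agent.Results.MP_b78e92_an.LocalUniqueness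

open Filter SC ST AM

theorem result {N : Type*} [CStarAlgebra N] (τ : N →ₗ[ℂ] ℂ) (hτ : IsII1 τ) (U : Ultrafilter ℕ)
    (hU : (U : Filter ℕ) ≤ cofinite) (e z : N) (he : IsProj e) (he0 : e ≠ 0) (hz : z ∈ Haar τ)
    (hez : e * z = z * e) :
    (∀ w ∈ LocU e, ∃ n, Path τ U n z (w * z * star w)) ↔
      ∃ n, ∀ u ∈ Haar τ, ∀ v ∈ Haar τ, Path τ U n u v :=
  ⟨conj_all hτ hU he he0 hz hez, fun ⟨n, hn⟩ w hw => ⟨n, hn _ hz _ (haar_conj hτ hz hw.1)⟩⟩

end Pool.Agent.Results.MP_b78e92_an.LocalUniqueness
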