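import Pool.Agent.H77.ST.T5

/-!
# Sequential commutation orbits of a II₁ factor and the algebras they generate

Let `(N, τ)` be a II₁ factor, `H(N)` its set of Haar unitaries with the 2-norm, `U` a non-principal
ultrafilter on `ℕ`.  For every sequential commutation orbit `O`, with `M = W*(O)`: `O` is dense in
`H(M)`; and either `O = H(M)` and any two elements of `O` are joined by a path of one fixed length,
or `O ≠ H(M)` and there are continuum many unitaries of `M` whose conjugates of `O` are pairwise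
distinct orbits, each generating `M`.
-/

set_option autoImplicit false

namespace Pool.Agent.Results.MP_b78e92_an.OrbitClosures

open Filter SC

theorem exists_genBy {N : Type*} [CStarAlgebra N] (τ : N →ₗ[ℂ] ℂ) (O : Set N) :
    ∃ M : StarSubalgebra ℂ N, IsGenBy τ O M := by
  refine ⟨sInf {M' : StarSubalgebra ℂ N | Closed2 τ (M' : Set N) ∧ O ⊆ (M' : Set N)}, ?_, ?_, ?_⟩
  · intro x hx
    rw [SetLike.mem_coe, StarSubalgebra.mem_sInf]
    intro M' hM'
    refine hM'.1 x fun ε hε => ?_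
    obtain ⟨y, hy, hlt⟩ := hx ε hε
    rw [SetLike.mem_coe, StarSubalgebra.mem_sInf] at hy
    exact ⟨y, hy M' hM', hlt⟩
  · intro x hx
    rw [SetLike.mem_coe, StarSubalgebra.mem_sInf]
    exact fun M' hM' => hM'.2 hx
  · intro M' h1 h2
    exact sInf_le ⟨h1, h2⟩

theorem result {N : Type*} [CStarAlgebra N] (τ : N →ₗ[ℂ] ℂ) (hτ : IsII1 τ) (U : Ultrafilter ℕ)
    (hU : (U : Filter ℕ) ≤ cofinite) (O : Set N) (hO : IsOrb τ U O) :
    ∃ M : StarSubalgebra ℂ N, IsGenBy τ O M ∧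
      (∀ v ∈ Haar τ, v ∈ M → ∀ ε : ℝ, 0 < ε → ∃ u ∈ O, n2 τ (v - u) < ε) ∧
      ((O = {v : N | v ∈ Haar τ ∧ v ∈ M} ∧ ∃ n, ∀ u ∈ O, ∀ v ∈ O, Path τ U n u v) ∨
        (O ≠ {v : N | v ∈ Haar τ ∧ v ∈ M} ∧ ∃ w : (ℕ → Bool) → N,
          (∀ s, w s ∈ unitary N ∧ w s ∈ M ∧ IsOrb τ U (conjSet (w s) O) ∧
            IsGenBy τ (conjSet (w s) O) M) ∧
          ∀ s t, s ≠ t → conjSet (w s) O ≠ conjSet (w t) O)) := by
  obtain ⟨M, hM⟩ := exists_genBy τ O
  exact ⟨M, hM, (ST.main hτ hU).2.1 O M hO hM⟩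

end Pool.Agent.Results.MP_b78e92_an.OrbitClosures
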