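import Pool.Agent.H77.ST.T5

/-!
# Trichotomy for the sequential commutation orbits of a II₁ factor

Let `(N, τ)` be a II₁ factor, `H(N)` its set of Haar unitaries with the 2-norm, `U` a non-principal
ultrafilter on `ℕ`.  Exactly one of the following holds.

* (A) For some `n` any two Haar unitaries of `N` are joined by a path of length `n`.
* (B) Some orbit generates `N`.  Every orbit which generates `N` is dense in `H(N)`, is not `H(N)`,
  and has continuum many pairwise distinct unitary conjugates, which are again orbits generating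
  `N`; every other orbit is nowhere dense.
* (C) No orbit generates `N`, every orbit is nowhere dense, and there are continuum many orbits.
-/

set_option autoImplicit false

namespace Pool.Agent.Results.MP_b78e92_an.OrbitTrichotomy

open Filter SC

variable {N : Type*} [CStarAlgebra N]

/-- (A): any two Haar unitaries are joined by a path of one fixed length. -/
def Bounded (τ : N →ₗ[ℂ] ℂ) (U : Ultrafilter ℕ) : Prop :=
  ∃ n, ∀ u ∈ Haar τ, ∀ v ∈ Haar τ, Path τ U n u v

/-- (B): some orbit generates `N`; every orbit is either generating, dense, different from `H(N)` and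
has continuum many unitary conjugates, all of them orbits generating `N`; or it is nowhere dense and
does not generate `N`. -/
def ManyDense (τ : N →ₗ[ℂ] ℂ) (U : Ultrafilter ℕ) : Prop :=
  (∃ O : Set N, IsOrb τ U O ∧ IsGenBy τ O ⊤) ∧
  ∀ O : Set N, IsOrb τ U O →
    (IsGenBy τ O ⊤ ∧ Dense2 τ O ∧ O ≠ Haar τ ∧ ∃ w : (ℕ → Bool) → N,
      (∀ s, w s ∈ unitary N ∧ IsOrb τ U (conjSet (w s) O) ∧ IsGenBy τ (conjSet (w s) O) ⊤) ∧
      ∀ s t, s ≠ t → conjSet (w s) O ≠ conjSet (w t) O) ∨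
    (¬ IsGenBy τ O ⊤ ∧ ¬ SomewhereDense τ O)

/-- (C): no orbit generates `N`, every orbit is nowhere dense, and there are continuum many
orbits. -/
def AllNowhereDense (τ : N →ₗ[ℂ] ℂ) (U : Ultrafilter ℕ) : Prop :=
  (∀ O : Set N, IsOrb τ U O → ¬ IsGenBy τ O ⊤ ∧ ¬ SomewhereDense τ O) ∧
  ∃ f : (ℕ → Bool) → N, (∀ s, f s ∈ Haar τ) ∧ ∀ s t, s ≠ t → Orb τ U (f s) ≠ Orb τ U (f t)

theorem result (τ : N →ₗ[ℂ] ℂ) (hτ : IsII1 τ) (U : Ultrafilter ℕ)
    (hU : (U : Filter ℕ) ≤ cofinite) :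
    (Bounded τ U ∧ ¬ ManyDense τ U ∧ ¬ AllNowhereDense τ U) ∨
    (¬ Bounded τ U ∧ ManyDense τ U ∧ ¬ AllNowhereDense τ U) ∨
    (¬ Bounded τ U ∧ ¬ ManyDense τ U ∧ AllNowhereDense τ U) := by
  obtain ⟨⟨u₀, hu₀⟩, h1, h2, h3⟩ := ST.main hτ hU
  have hsd : ∀ O : Set N, IsOrb τ U O → Dense2 τ O → SomewhereDense τ O := by
    intro O hO hd
    exact ⟨u₀, hu₀, 1, one_pos, fun v' hv' _ ε hε => hd v' hv' ε hε⟩
  have hgd : ∀ O : Set N, IsOrb τ U O → IsGenBy τ O ⊤ → Dense2 τ O :=
    fun O hO hg v hv ε hε => (h1 O ⊤ hO hg).1 v hv trivial ε hε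
  have hset : {v : N | v ∈ Haar τ ∧ v ∈ (⊤ : StarSubalgebra ℂ N)} = Haar τ := by
    ext v
    exact ⟨fun h => h.1, fun h => ⟨h, trivial⟩⟩
  have hno : ∀ O : Set N, IsOrb τ U O → ¬ IsGenBy τ O ⊤ → ¬ SomewhereDense τ O :=
    fun O hO hg hs => hg (h2 O hO hs)
  -- (A) and (C) exclude each other, (A) excludes (B)
  have hA : Bounded τ U → ∀ O : Set N, IsOrb τ U O → O = Haar τ := by
    rintro ⟨n, hn⟩ O hO
    obtain ⟨u, hu⟩ := orb_nonempty hO
    exact Set.Subset.antisymm (fun x hx => orb_haar hO hx)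
      (fun x hx => orb_of_path hO hu (hn u (orb_haar hO hu) x hx))
  have horb : IsOrb τ U (Orb τ U u₀) := (orb_isOrb hu₀).1
  have hAg : Bounded τ U → IsGenBy τ (Orb τ U u₀) ⊤ := by
    intro hb
    apply h2 _ horb
    apply hsd _ horb
    intro v hv ε hε
    refine ⟨v, ?_, ?_⟩
    · rw [hA hb _ horb]
      exact hv
    · rw [sub_self, n2_zero]
      exact hε
  have hAB : Bounded τ U → ¬ ManyDense τ U := by
    rintro hb ⟨-, hall⟩
    rcases hall _ horb with h | h
    · exact h.2.2.1 (hA hb _ horb)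
    · exact h.1 (hAg hb)
  have hAC : Bounded τ U → ¬ AllNowhereDense τ U := fun hb hc => (hc.1 _ horb).1 (hAg hb)
  have hBC : ManyDense τ U → ¬ AllNowhereDense τ U := by
    rintro ⟨⟨O, hO, hg⟩, -⟩ hc
    exact (hc.1 O hO).1 hg
  by_cases hb : Bounded τ U
  · exact Or.inl ⟨hb, hAB hb, hAC hb⟩
  by_cases hg : ∃ O : Set N, IsOrb τ U O ∧ IsGenBy τ O ⊤
  · have hB : ManyDense τ U := by
      refine ⟨hg, fun O hO => ?_⟩
      by_cases hgO : IsGenBy τ O ⊤
      · refine Or.inl ⟨hgO, hgd O hO hgO, ?_⟩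
        rcases (h1 O ⊤ hO hgO).2 with h | h
        · rw [hset] at h
          obtain ⟨hOe, n, hn⟩ := h
          exfalso
          apply hb
          refine ⟨n, fun u hu v hv => hn u ?_ v ?_⟩
          · rw [hOe]
            exact hu
          · rw [hOe]
            exact hv
        · rw [hset] at h
          obtain ⟨hne, w, hw, hd⟩ := h
          exact ⟨hne, w, fun s => ⟨(hw s).1, (hw s).2.2.1, (hw s).2.2.2⟩, hd⟩
      · exact Or.inr ⟨hgO, hno O hO hgO⟩
    exact Or.inr (Or.inl ⟨hb, hB, hBC hB⟩)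
  · push Not at hg
    have hC : AllNowhereDense τ U := ⟨fun O hO => ⟨hg O hO, hno O hO (hg O hO)⟩, h3 hg⟩
    exact Or.inr (Or.inr ⟨hb, fun hB => hBC hB hC, hC⟩)

end Pool.Agent.Results.MP_b78e92_an.OrbitTrichotomy
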